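import Pool.Agent.X198.NS.Press

open Set Filter Topology

namespace X198NS

universe u v

variable {T : Type u} [PartialOrder T] {V : Type v}

theorem stay {G : SimpleGraph V} {S C : Set V} {x y : V} (h : Lk G S x y) (hx : x ∈ C)
    (hS : ∀ b ∈ S, b ∉ Nb G C) : y ∈ C := by
  induction h with
  | refl => exact hx
  | tail _ hab ih =>
    by_contra hb
    exact hS _ hab.2.2 ⟨hb, _, ih, hab.1⟩

theorem cross {G : SimpleGraph V} {S Z : Set V} {x y : V} (h : Lk G S x y) (hx : x ∈ Z)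
    (hy : y ∉ Z) : ∃ a b, a ∈ Z ∧ b ∉ Z ∧ Adjs G S a b := by
  induction h with
  | refl => exact absurd hx hy
  | @tail b c _ hbc ih =>
    by_cases hb : b ∈ Z
    · exact ⟨b, c, hb, hy, hbc⟩
    · exact ih hb

theorem lk_symm {G : SimpleGraph V} {S : Set V} {x y : V} (h : Lk G S x y) : Lk G S y x := by
  induction h with
  | refl => exact Relation.ReflTransGen.refl
  | tail _ hbc ih => exact Relation.ReflTransGen.head ⟨hbc.1.symm, hbc.2.2, hbc.2.1⟩ ih

theorem lk_mono {G : SimpleGraph V} {S S' : Set V} (hS : S ⊆ S') {x y : V} (h : Lk G S x y) :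
    Lk G S' x y := by
  induction h with
  | refl => exact Relation.ReflTransGen.refl
  | tail _ hbc ih => exact Relation.ReflTransGen.tail ih ⟨hbc.1, hS hbc.2.1, hS hbc.2.2⟩

theorem fin_bad {G : SimpleGraph V} {D : Set V} {C : T → Set V} {U : Set T} {t : T} {v0 : V}
    (hv0 : ∀ s ∈ U, s < t → v0 ∈ C s)
    (hdis : ∀ v, v ∉ D → {s | s ∈ U ∧ s < t ∧ v ∈ Nb G (C s)}.Subsingleton)
    {S : Set V} (hS : ∀ v ∈ S, v ∉ D) {y : V} (h : Lk G S v0 y) :
    {s | s ∈ U ∧ s < t ∧ y ∉ C s}.Finite := by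
  induction h with
  | refl =>
    refine Set.Finite.subset Set.finite_empty ?_
    rintro s ⟨h1, h2, h3⟩
    exact absurd (hv0 s h1 h2) h3
  | @tail b c _ hbc ih =>
    refine (ih.union (hdis c (hS c hbc.2.2)).finite).subset ?_
    rintro s ⟨h1, h2, h3⟩
    by_cases hb : b ∈ C s
    · exact Or.inr ⟨h1, h2, h3, b, hb, hbc.1⟩
    · exact Or.inl ⟨h1, h2, hb⟩

/-- The final step: a set of nodes with nested separators is special. -/
theorem stepG (hT : IsOrderTree T) (G : SimpleGraph V) (U : Set T)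
    (ρ : T → ℕ → V) (hinj : ∀ t ∈ U, Function.Injective (ρ t))
    (hadj : ∀ t ∈ U, ∀ n, G.Adj (ρ t n) (ρ t (n + 1)))
    (C : T → Set V) (D : Set V)
    (hconn : ∀ t ∈ U, ∀ x ∈ C t, ∀ y ∈ C t, Lk G (C t) x y)
    (hfin : ∀ t ∈ U, (Nb G (C t)).Finite)
    (hi : ∀ t ∈ U, ∃ N, ∀ n ≥ N, ρ t n ∈ C t)
    (ha : ∀ s ∈ U, ∀ t ∈ U, s < t → ∃ N, ∀ n ≥ N, ρ s n ∈ C t)
    (hb : ∀ s ∈ U, ∀ t ∈ U, s < t → ∃ N, ∀ n ≥ N, ρ t n ∉ C s)
    (hD : ∀ t ∈ U, D ⊆ Nb G (C t))
    (hN : ∀ s ∈ U, ∀ t ∈ U, s < t → ∀ v ∈ Nb G (C t), v ∉ D → v ∈ C s) :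
    SpecialOn U := by
  classical
  have hk : ∀ s t : T, ∃ k : ℕ, s ∈ U → t ∈ U → s < t →
      ∀ m ≥ k, ρ t m ∈ (C s ∪ Nb G (C s))ᶜ := by
    intro s t
    by_cases h : s ∈ U ∧ t ∈ U ∧ s < t
    · obtain ⟨hs, ht, hst⟩ := h
      obtain ⟨N, hN1⟩ := hb s hs t ht hst
      have h2 : ∀ᶠ n in atTop, ρ t n ∉ Nb G (C s) := by
        have := (hinj t ht).tendsto_cofinite.eventually (hfin s hs).eventually_cofinite_notMem
        rwa [Nat.cofinite_eq_atTop] at this
      obtain ⟨M, hM⟩ := eventually_atTop.1 h2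
      refine ⟨max N M, fun _ _ _ m hm => ?_⟩
      rintro (h | h)
      · exact hN1 m (le_trans (le_max_left _ _) hm) h
      · exact hM m (le_trans (le_max_right _ _) hm) h
    · exact ⟨0, fun h1 h2 h3 => absurd ⟨h1, h2, h3⟩ h⟩
  choose k hk using hk
  let Z : T → T → Set V := fun s t => {x | Lk G (C s ∪ Nb G (C s))ᶜ (ρ t (k s t)) x}
  have hZout : ∀ s ∈ U, ∀ t ∈ U, s < t → Z s t ⊆ (C s ∪ Nb G (C s))ᶜ := by
    intro s hs t ht hst x hx
    have hx' : Lk G (C s ∪ Nb G (C s))ᶜ (ρ t (k s t)) x := hx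
    rcases Relation.ReflTransGen.cases_tail hx' with h | ⟨c, _, h⟩
    · rw [h]
      exact hk s t hs ht hst _ le_rfl
    · exact h.2.2
  have hZray : ∀ s ∈ U, ∀ t ∈ U, s < t → ∀ m ≥ k s t, ρ t m ∈ Z s t := by
    intro s hs t ht hst m hm
    induction m, hm using Nat.le_induction with
    | base => exact Relation.ReflTransGen.refl
    | succ m hm ih =>
      exact Relation.ReflTransGen.tail ih ⟨hadj t ht m, hk s t hs ht hst m hm,
        hk s t hs ht hst (m + 1) (by omega)⟩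
  have hu : ∀ s t : T, ∃ u : V, s ∈ U → t ∈ U → s < t →
      u ∈ Nb G (C s) ∧ u ∈ C t ∧ ∃ a ∈ Z s t, G.Adj a u := by
    intro s t
    by_cases h : s ∈ U ∧ t ∈ U ∧ s < t
    · obtain ⟨hs, ht, hst⟩ := h
      obtain ⟨N1, hN1⟩ := hi t ht
      obtain ⟨N2, hN2⟩ := hi s hs
      obtain ⟨N3, hN3⟩ := ha s hs t ht hst
      have hx : ρ t (max N1 (k s t)) ∈ C t := hN1 _ (le_max_left _ _)
      have hxZ : ρ t (max N1 (k s t)) ∈ Z s t := hZray s hs t ht hst _ (le_max_right _ _)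
      have hy : ρ s (max N2 N3) ∈ C t := hN3 _ (le_max_right _ _)
      have hyC : ρ s (max N2 N3) ∈ C s := hN2 _ (le_max_left _ _)
      have hyZ : ρ s (max N2 N3) ∉ Z s t := fun h => hZout s hs t ht hst h (Or.inl hyC)
      obtain ⟨a, b, haZ, hbZ, hab⟩ := cross (hconn t ht _ hx _ hy) hxZ hyZ
      have haout := hZout s hs t ht hst haZ
      have hbin : b ∈ C s ∪ Nb G (C s) := by
        by_contra hb'
        exact hbZ (Relation.ReflTransGen.tail haZ ⟨hab.1, haout, hb'⟩)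
      have hbNb : b ∈ Nb G (C s) := by
        rcases hbin with h | h
        · exfalso
          apply haout
          right
          exact ⟨fun h' => haout (Or.inl h'), b, h, hab.1.symm⟩
        · exact h
      exact ⟨b, fun _ _ _ => ⟨hbNb, hab.2.2, a, haZ, hab.1⟩⟩
    · exact ⟨ρ s 0, fun h1 h2 h3 => absurd ⟨h1, h2, h3⟩ h⟩
  choose u hu using hu
  -- later links avoid earlier pieces
  have hdisj : ∀ s ∈ U, ∀ t ∈ U, ∀ t' ∈ U, s < t → t < t' →
      ∀ x ∈ Z s t', x ∉ C t ∧ x ∉ Nb G (C t) := by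
    intro s hs t ht t' ht' hst htt'
    have hst' := hst.trans htt'
    have hF : ∀ x ∈ Z s t', x ∉ Nb G (C t) := by
      intro x hx hxF
      have hout := hZout s hs t' ht' hst' hx
      have hxD : x ∉ D := fun h => hout (Or.inr (hD s hs h))
      exact hout (Or.inl (hN s hs t ht hst x hxF hxD))
    intro x hx
    refine ⟨fun hxC => ?_, hF x hx⟩
    obtain ⟨N, hN'⟩ := hb t ht t' ht' htt'
    have hm : ρ t' (max N (k s t')) ∈ Z s t' := hZray s hs t' ht' hst' _ (le_max_right _ _)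
    have hmC : ρ t' (max N (k s t')) ∉ C t := hN' _ (le_max_left _ _)
    -- walk inside Z from x to the ray
    have hwalk : ∀ y ∈ Z s t', Lk G (Z s t') (ρ t' (k s t')) y := by
      intro y hy
      have hy' : Lk G (C s ∪ Nb G (C s))ᶜ (ρ t' (k s t')) y := hy
      clear hy
      induction hy' with
      | refl => exact Relation.ReflTransGen.refl
      | @tail b c hb' hbc ih =>
        exact Relation.ReflTransGen.tail ih ⟨hbc.1, hb', Relation.ReflTransGen.tail hb' hbc⟩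
    have hw := (lk_symm (hwalk x hx)).trans (hwalk _ hm)
    exact hmC (stay hw hxC hF)
  have hinj' : ∀ s ∈ U, ∀ t ∈ U, ∀ t' ∈ U, s < t → t < t' → u s t ≠ u s t' := by
    intro s hs t ht t' ht' hst htt' heq
    obtain ⟨h1, h2, _⟩ := hu s t hs ht hst
    obtain ⟨h3, h4, a, haZ, hau⟩ := hu s t' hs ht' (hst.trans htt')
    have h5 := hdisj s hs t ht t' ht' hst htt' a haZ
    apply h5.2
    refine ⟨h5.1, u s t, h2, ?_⟩
    rw [heq]
    exact hau.symm
  have hfin1 : ∀ s ∈ U, ∀ t, {r | r ∈ U ∧ s < r ∧ r ≤ t}.Finite := by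
    intro s hs t
    apply Set.Finite.of_finite_image (f := u s)
    · refine (hfin s hs).subset ?_
      rintro _ ⟨r, ⟨hr, hsr, _⟩, rfl⟩
      exact (hu s r hs hr hsr).1
    · rintro a ⟨ha1, ha2, ha3⟩ b ⟨hb1, hb2, hb3⟩ heq
      rcases comparable hT ha3 hb3 with h | h
      · rcases eq_or_lt_of_le h with h | h
        · exact h
        · exact absurd heq (hinj' s hs a ha1 b hb1 ha2 h)
      · rcases eq_or_lt_of_le h with h | h
        · exact h.symm
        · exact absurd heq.symm (hinj' s hs b hb1 a ha1 hb2 h)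
  have hfin2 : ∀ t, {r | r ∈ U ∧ r < t}.Finite := by
    intro t
    by_cases hne : {r | r ∈ U ∧ r < t}.Nonempty
    · obtain ⟨m, hm, hmin⟩ := hT.2 t {r | r ∈ U ∧ r < t} (fun r hr => hr.2.le) hne
      refine ((hfin1 m hm.1 t).insert m).subset ?_
      rintro r ⟨hr1, hr2⟩
      rcases eq_or_lt_of_le (hmin r ⟨hr1, hr2⟩) with h | h
      · exact Or.inl h.symm
      · exact Or.inr ⟨hr1, h, hr2.le⟩
    · rw [not_nonempty_iff_eq_empty] at hne
      rw [hne]
      exact finite_empty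
  refine ⟨fun t => {r | r ∈ U ∧ r < t}.ncard, fun a ha' b hb' hab => ne_of_lt ?_⟩
  apply Set.ncard_lt_ncard _ (hfin2 b)
  refine ⟨fun r hr => ⟨hr.1, hr.2.trans hab⟩, fun h => ?_⟩
  exact lt_irrefl a (h ⟨ha', hab⟩).2

end X198NS
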