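import Mathlib

open Set Filter Topology

namespace X198NS

universe u v

/-- An order tree: a partially ordered set with a least element in which every set
`{s | s ≤ t}` is well-ordered (each nonempty subset of it has a least element). -/
def IsOrderTree (T : Type u) [PartialOrder T] : Prop :=
  (∃ r : T, ∀ t, r ≤ t) ∧
    ∀ t : T, ∀ S : Set T, S ⊆ Iic t → S.Nonempty → ∃ m ∈ S, ∀ s ∈ S, m ≤ s

/-- `T` is special: it is the union of countably many antichains (sets without two different
comparable elements). -/
def IsSpecial (T : Type u) [PartialOrder T] : Prop :=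
  ∃ A : ℕ → Set T, (∀ n, IsAntichain (· ≤ ·) (A n)) ∧ (⋃ n, A n) = univ

/-- A ray of the order tree `T`: a chain that is closed downwards and has no maximal element
(read literally, this includes the empty chain). -/
structure TreeRay (T : Type u) [PartialOrder T] where
  carrier : Set T
  chain : IsChain (· ≤ ·) carrier
  down : ∀ a ∈ carrier, ∀ b, b ≤ a → b ∈ carrier
  noMax : ∀ a ∈ carrier, ∃ b ∈ carrier, a < b

open Classical in
/-- The characteristic function of a ray, a point of the Cantor cube `2^T`. -/
noncomputable def TreeRay.code {T : Type u} [PartialOrder T] (R : TreeRay T) : T → Bool :=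
  fun t => decide (t ∈ R.carrier)

/-- The ray space of `T`: the set of rays with the subspace topology of the Cantor cube `2^T`
(product topology, `Bool` discrete). -/
noncomputable instance rayTopology (T : Type u) [PartialOrder T] :
    TopologicalSpace (TreeRay T) :=
  TopologicalSpace.induced TreeRay.code inferInstance

/-- The space of nonempty rays of `T`, a subspace of the space of all rays. -/
def NonemptyRay (T : Type u) [PartialOrder T] : Type u :=
  {R : TreeRay T // R.carrier.Nonempty}

noncomputable instance nonemptyRayTopology (T : Type u) [PartialOrder T] :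
    TopologicalSpace (NonemptyRay T) :=
  inferInstanceAs (TopologicalSpace {R : TreeRay T // R.carrier.Nonempty})

/-- A ray of the graph `G`: a one-way infinite path. -/
structure GraphRay {V : Type v} (G : SimpleGraph V) where
  vert : ℕ → V
  inj : Function.Injective vert
  adj : ∀ n, G.Adj (vert n) (vert (n + 1))

/-- The finite vertex set `F` does not separate the rays `r` and `s`: some tails of `r` and `s`
lie in the same component of `G - F`. -/
def NotSeparated {V : Type v} (G : SimpleGraph V) (F : Finset V) (r s : GraphRay G) : Prop :=
  ∃ N : ℕ, ∀ i ≥ N, ∀ j ≥ N, ∃ w : G.Walk (r.vert i) (s.vert j), ∀ x ∈ w.support, x ∉ F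

/-- Vertices that are linked by a walk in `S`. -/
def Adjs {V : Type v} (G : SimpleGraph V) (S : Set V) (a b : V) : Prop :=
  G.Adj a b ∧ a ∈ S ∧ b ∈ S

/-- Reflexive-transitive closure of adjacency inside `S`. -/
def Lk {V : Type v} (G : SimpleGraph V) (S : Set V) : V → V → Prop :=
  Relation.ReflTransGen (Adjs G S)

/-- The neighbourhood of a vertex set. -/
def Nb {V : Type v} (G : SimpleGraph V) (C : Set V) : Set V :=
  {v | v ∉ C ∧ ∃ w ∈ C, G.Adj w v}

end X198NS
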