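import Pool.Agent.X198.NS.Main

open Set Filter Topology

namespace X198NS

universe u v w

variable {V : Type v}

theorem walk_iff (G : SimpleGraph V) (F : Finset V) (x y : V) :
    (∃ w : G.Walk x y, ∀ z ∈ w.support, z ∉ F) ↔ x ∉ F ∧ Lk G ((F : Set V)ᶜ) x y := by
  constructor
  · rintro ⟨w, hw⟩
    induction w with
    | nil => exact ⟨hw _ (by simp), Relation.ReflTransGen.refl⟩
    | cons h p ih =>
      have h1 := ih (fun z hz => hw z (by simp [hz]))
      have h2 := hw _ (SimpleGraph.Walk.start_mem_support _)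
      exact ⟨h2, Relation.ReflTransGen.head ⟨h, by simpa using h2, by simpa using h1.1⟩ h1.2⟩
  · rintro ⟨hx, h⟩
    induction h with
    | refl => exact ⟨SimpleGraph.Walk.nil, by simpa using hx⟩
    | tail _ hbc ih =>
      obtain ⟨w, hw⟩ := ih
      refine ⟨w.concat hbc.1, ?_⟩
      intro z hz
      rw [SimpleGraph.Walk.support_concat] at hz
      simp only [List.concat_eq_append, List.mem_append, List.mem_singleton] at hz
      rcases hz with hz | rfl
      · exact hw z hz
      · simpa using hbc.2.2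

theorem notSeparated_iff (G : SimpleGraph V) (F : Finset V) (r s : GraphRay G) :
    NotSeparated G F r s ↔ ∃ N : ℕ, ∀ i ≥ N, ∀ j ≥ N,
      r.vert i ∉ F ∧ Lk G ((F : Set V)ᶜ) (r.vert i) (s.vert j) := by
  unfold NotSeparated
  simp only [walk_iff]

theorem eventually_out {G : SimpleGraph V} (F : Finset V) (r : GraphRay G) :
    ∃ N, ∀ n ≥ N, r.vert n ∉ F := by
  have h2 : ∀ᶠ n in atTop, r.vert n ∉ (F : Set V) := by
    have := r.inj.tendsto_cofinite.eventually F.finite_toSet.eventually_cofinite_notMem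
    rwa [Nat.cofinite_eq_atTop] at this
  obtain ⟨M, hM⟩ := eventually_atTop.1 h2
  exact ⟨M, fun n hn => by simpa using hM n hn⟩

theorem lk_ray {G : SimpleGraph V} {F : Finset V} {r : GraphRay G} {N : ℕ}
    (h : ∀ n ≥ N, r.vert n ∉ F) {i j : ℕ} (hi : N ≤ i) (hij : i ≤ j) :
    Lk G ((F : Set V)ᶜ) (r.vert i) (r.vert j) := by
  induction j, hij using Nat.le_induction with
  | base => exact Relation.ReflTransGen.refl
  | succ m hm ih =>
    exact Relation.ReflTransGen.tail ih ⟨r.adj m, by simpa using h m (hi.trans hm),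
      by simpa using h (m + 1) (by omega)⟩

theorem notSep_refl (G : SimpleGraph V) (F : Finset V) (r : GraphRay G) :
    NotSeparated G F r r := by
  rw [notSeparated_iff]
  obtain ⟨N, hN⟩ := eventually_out F r
  refine ⟨N, fun i hi j hj => ⟨hN i hi, ?_⟩⟩
  rcases le_total i j with h | h
  · exact lk_ray hN hi h
  · exact lk_symm (lk_ray hN hj h)

theorem notSep_symm {G : SimpleGraph V} {F : Finset V} {r s : GraphRay G}
    (h : NotSeparated G F r s) : NotSeparated G F s r := by
  obtain ⟨N, hN⟩ := h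
  refine ⟨N, fun i hi j hj => ?_⟩
  obtain ⟨w, hw⟩ := hN j hj i hi
  exact ⟨w.reverse, fun x hx => hw x (by simpa using hx)⟩

theorem notSep_trans {G : SimpleGraph V} {F : Finset V} {r s t : GraphRay G}
    (h : NotSeparated G F r s) (h' : NotSeparated G F s t) : NotSeparated G F r t := by
  rw [notSeparated_iff] at h h' ⊢
  obtain ⟨N, hN⟩ := h
  obtain ⟨M, hM⟩ := h'
  refine ⟨max N M, fun i hi j hj => ?_⟩
  have h1 := hN i ((le_max_left _ _).trans hi) (max N M) (le_max_left _ _)
  have h2 := hM (max N M) (le_max_right _ _) j ((le_max_right _ _).trans hj)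
  exact ⟨h1.1, h1.2.trans h2.2⟩

/-- Two rays of a graph are equivalent if no finite vertex set separates them. -/
def endSetoid (G : SimpleGraph V) : Setoid (GraphRay G) where
  r r s := ∀ F : Finset V, NotSeparated G F r s
  iseqv :=
    { refl := fun r F => notSep_refl G F r
      symm := fun h F => notSep_symm (h F)
      trans := fun h h' F => notSep_trans (h F) (h' F) }

/-- The ends of `G`: the equivalence classes of rays. -/
def Ends (G : SimpleGraph V) : Type v := Quotient (endSetoid G)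

/-- The end that contains a given ray. -/
def endOf {G : SimpleGraph V} (r : GraphRay G) : Ends G := Quotient.mk (endSetoid G) r

/-- `Ω(ε, F)`: the ends `η` such that rays in `ε` and rays in `η` are not separated by `F`. -/
def Om (G : SimpleGraph V) (ε : Ends G) (F : Finset V) : Set (Ends G) :=
  {η | ∀ r s : GraphRay G, endOf r = ε → endOf s = η → NotSeparated G F r s}

/-- The end space of `G`: the topology generated by the sets `Ω(ε, F)`. -/
instance endsTopology (G : SimpleGraph V) : TopologicalSpace (Ends G) :=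
  TopologicalSpace.generateFrom {S | ∃ (ε : Ends G) (F : Finset V), S = Om G ε F}

theorem mem_Om {G : SimpleGraph V} {r s : GraphRay G} {F : Finset V} :
    endOf s ∈ Om G (endOf r) F ↔ NotSeparated G F r s := by
  constructor
  · intro h
    exact h r s rfl rfl
  · intro h r' s' hr hs
    have h1 : (endSetoid G) r' r := Quotient.exact hr
    have h2 : (endSetoid G) s' s := Quotient.exact hs
    exact notSep_trans (notSep_trans (h1 F) h) (notSep_symm (h2 F))

theorem notSep_mono {G : SimpleGraph V} {F F' : Finset V} (hF : F ⊆ F') {r s : GraphRay G}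
    (h : NotSeparated G F' r s) : NotSeparated G F r s := by
  obtain ⟨N, hN⟩ := h
  refine ⟨N, fun i hi j hj => ?_⟩
  obtain ⟨w, hw⟩ := hN i hi j hj
  exact ⟨w, fun x hx hxF => hw x hx (hF hxF)⟩

theorem exists_Om {G : SimpleGraph V} {O : Set (Ends G)} (hO : IsOpen O) (r : GraphRay G)
    (hr : endOf r ∈ O) : ∃ F, Om G (endOf r) F ⊆ O := by
  classical
  have hO' : TopologicalSpace.GenerateOpen
      {S | ∃ (ε : Ends G) (F : Finset V), S = Om G ε F} O := hO
  clear hO
  induction hO' with
  | basic S hS =>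
    obtain ⟨ε, F, rfl⟩ := hS
    refine ⟨F, ?_⟩
    obtain ⟨s, rfl⟩ : ∃ s, endOf s = ε := Quotient.exists_rep ε
    rw [mem_Om] at hr
    intro η hη
    obtain ⟨q, rfl⟩ : ∃ q, endOf q = η := Quotient.exists_rep η
    rw [mem_Om] at hη ⊢
    exact notSep_trans hr hη
  | univ => exact ⟨∅, subset_univ _⟩
  | inter S S' _ _ ih ih' =>
    obtain ⟨F, hF⟩ := ih hr.1
    obtain ⟨F', hF'⟩ := ih' hr.2
    refine ⟨F ∪ F', fun η hη => ?_⟩
    obtain ⟨q, rfl⟩ : ∃ q, endOf q = η := Quotient.exists_rep η
    rw [mem_Om] at hη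
    exact ⟨hF (mem_Om.2 (notSep_mono Finset.subset_union_left hη)),
      hF' (mem_Om.2 (notSep_mono Finset.subset_union_right hη))⟩
  | sUnion 𝒮 _ ih =>
    obtain ⟨S, hS, hrS⟩ := hr
    obtain ⟨F, hF⟩ := ih S hS hrS
    exact ⟨F, hF.trans (subset_sUnion_of_mem hS)⟩

theorem isOpen_Om (G : SimpleGraph V) (ε : Ends G) (F : Finset V) : IsOpen (Om G ε F) :=
  TopologicalSpace.isOpen_generateFrom_of_mem ⟨ε, F, rfl⟩

variable {T : Type u} [PartialOrder T]

/-- Limit nodes. -/
def IsLim (t : T) : Prop := (∃ s, s < t) ∧ ∀ s < t, ∃ s', s < s' ∧ s' < t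

theorem code_open {O : Set (TreeRay T)} (hO : IsOpen O) (R : TreeRay T) (hR : R ∈ O) :
    ∃ I : Finset T, ∀ R' : TreeRay T, (∀ a ∈ I, (a ∈ R'.carrier ↔ a ∈ R.carrier)) → R' ∈ O := by
  obtain ⟨O', hO', rfl⟩ := isOpen_induced_iff.1 hO
  obtain ⟨I, U, hU, hUO⟩ := (isOpen_pi_iff.1 hO') R.code hR
  refine ⟨I, fun R' h => hUO ?_⟩
  intro a ha
  have : R'.code a = R.code a := by
    classical
    show decide (a ∈ R'.carrier) = decide (a ∈ R.carrier)
    rw [decide_eq_decide]
    exact h a ha
  rw [this]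
  exact (hU a ha).2

theorem isOpen_notMem (t : T) : IsOpen {R : TreeRay T | t ∉ R.carrier} := by
  refine isOpen_induced_iff.2 ⟨{f | f t = false}, ?_, ?_⟩
  · have h : Continuous (fun f : T → Bool => f t) := continuous_apply t
    exact (isOpen_discrete ({false} : Set Bool)).preimage h
  · ext R
    simp [TreeRay.code]

theorem main_gen (hT : IsOrderTree T) (G : SimpleGraph V) {X : Type w} [TopologicalSpace X]
    (q : X → TreeRay T) (hq : IsInducing q) (x : T → X)
    (hx : ∀ t, IsLim t → (q (x t)).carrier = Iio t)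
    (φ : X → Ends G) (hφ : IsInducing φ) : IsSpecial T := by
  classical
  obtain ⟨r, hr⟩ := hT.1
  apply special_of_small hT hr
  -- reduction to limit nodes
  set L : Set T := {t | t ∈ Ctb T ∧ IsLim t} with hL
  suffices hLs : Small L by
    have hsucc : Small {t : T | ∃ s, s < t ∧ ∀ r < t, r ≤ s} := small_succ _ fun t ht => ht
    refine (small_union hLs hsucc).mono ?_
    rintro t ⟨ht1, ht2⟩
    by_cases h : ∃ s, s < t ∧ ∀ r < t, r ≤ s
    · exact Or.inr h
    · left
      refine ⟨ht1, ⟨r, lt_of_le_of_ne (hr t) (Ne.symm ht2)⟩, fun s hs => ?_⟩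
      push Not at h
      obtain ⟨s', hs', hn⟩ := h s hs
      rcases comparable hT hs.le hs'.le with h1 | h1
      · exact ⟨s', lt_of_le_of_ne h1 (fun h2 => hn h2.ge), hs'⟩
      · exact absurd h1 hn
  -- representatives
  have hrep : ∀ t : T, ∃ ρ : GraphRay G, endOf ρ = φ (x t) := fun t =>
    Quotient.exists_rep (φ (x t))
  choose ρ hρ using hrep
  -- separators
  have hF : ∀ t : T, ∃ F : Finset V, IsLim t → ∀ y : X, t ∈ (q y).carrier →
      φ y ∉ Om G (endOf (ρ t)) F := by
    intro t
    by_cases ht : IsLim t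
    · have h1 : IsOpen {y : X | t ∉ (q y).carrier} := (isOpen_notMem t).preimage hq.continuous
      obtain ⟨W, hW, hWe⟩ := hφ.isOpen_iff.1 h1
      have h2 : x t ∈ {y : X | t ∉ (q y).carrier} := by
        simp only [mem_setOf_eq, hx t ht, mem_Iio, lt_irrefl, not_false_eq_true]
      rw [← hWe] at h2
      have h3 : endOf (ρ t) ∈ W := by rw [hρ t]; exact h2
      obtain ⟨F, hF⟩ := exists_Om hW (ρ t) h3
      refine ⟨F, fun _ y hy hyO => ?_⟩
      have h4 : y ∈ φ ⁻¹' W := hF hyO
      rw [hWe] at h4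
      exact h4 hy
    · exact ⟨∅, fun h => absurd h ht⟩
  choose F hF using hF
  -- regressive function
  have hp : ∀ t : T, ∃ p : T, IsLim t → p < t ∧ ∀ s, IsLim s → s < t → p < s →
      NotSeparated G (F t) (ρ t) (ρ s) := by
    intro t
    by_cases ht : IsLim t
    · have h1 : IsOpen (φ ⁻¹' (Om G (endOf (ρ t)) (F t))) :=
        (isOpen_Om G _ _).preimage hφ.continuous
      obtain ⟨O, hO, hOe⟩ := hq.isOpen_iff.1 h1
      have h2 : x t ∈ φ ⁻¹' (Om G (endOf (ρ t)) (F t)) := by
        show φ (x t) ∈ Om G (endOf (ρ t)) (F t)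
        rw [← hρ t, mem_Om]
        exact notSep_refl G _ _
      rw [← hOe] at h2
      obtain ⟨I, hI⟩ := code_open hO (q (x t)) h2
      have h3 : ∃ p : T, p < t ∧ ∀ a ∈ I, a < t → a ≤ p := by
        by_cases hne : {a | a ∈ I ∧ a < t}.Nonempty
        · have hfin : {a | a ∈ I ∧ a < t}.Finite := I.finite_toSet.subset fun a ha => ha.1
          obtain ⟨p, hp, hpmax⟩ := hfin.exists_maximal hne
          refine ⟨p, hp.2, fun a ha hat => ?_⟩
          rcases comparable hT hat.le hp.2.le with h | h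
          · exact h
          · exact hpmax ⟨ha, hat⟩ h
        · obtain ⟨s, hs⟩ := ht.1
          exact ⟨s, hs, fun a ha hat => absurd ⟨a, ha, hat⟩ hne⟩
      obtain ⟨p, hpt, hpI⟩ := h3
      refine ⟨p, fun _ => ⟨hpt, fun s hs hst hps => ?_⟩⟩
      have h4 : x s ∈ φ ⁻¹' (Om G (endOf (ρ t)) (F t)) := by
        rw [← hOe]
        apply hI
        intro a ha
        rw [hx s hs, hx t ht]
        constructor
        · intro h
          exact lt_trans h hst
        · intro h
          exact lt_of_le_of_lt (hpI a ha h) hps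
      have h5 : φ (x s) ∈ Om G (endOf (ρ t)) (F t) := h4
      rwa [← hρ s, mem_Om] at h5
    · exact ⟨t, fun h => absurd h ht⟩
  choose p hp using hp
  have hsep : ∀ s t, IsLim s → IsLim t → s < t → ¬ NotSeparated G (F s) (ρ s) (ρ t) := by
    intro s t hs ht hst hN
    apply hF s hs (x t)
    · rw [hx t ht]
      exact hst
    · rw [← hρ t, mem_Om]
      exact hN
  -- components
  have hn : ∀ t : T, ∃ N, ∀ n ≥ N, (ρ t).vert n ∉ F t := fun t => eventually_out (F t) (ρ t)
  choose n hn using hn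
  let C : T → Set V := fun t => {y | Lk G ((F t : Set V)ᶜ) ((ρ t).vert (n t)) y}
  have hCF : ∀ t, C t ⊆ ((F t : Set V)ᶜ) := by
    intro t y hy
    have hy' : Lk G ((F t : Set V)ᶜ) ((ρ t).vert (n t)) y := hy
    rcases Relation.ReflTransGen.cases_tail hy' with h | ⟨c, _, h⟩
    · rw [h]
      simpa using hn t _ le_rfl
    · exact h.2.2
  have hCi : ∀ t, ∀ m ≥ n t, (ρ t).vert m ∈ C t := fun t m hm => lk_ray (hn t) le_rfl hm
  refine comb hT G L (fun t ht => ht.1) (fun t => (ρ t).vert) (fun t _ => (ρ t).inj)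
    (fun t _ => (ρ t).adj) C p r ?_ ?_ ?_ ?_ ?_ ?_ ?_
  · rintro t ⟨_, ⟨s, hs⟩, _⟩
    exact lt_of_le_of_lt (hr s) hs
  · intro t _ a ha b hb
    have hwalk : ∀ y ∈ C t, Lk G (C t) ((ρ t).vert (n t)) y := by
      intro y hy
      have hy' : Lk G ((F t : Set V)ᶜ) ((ρ t).vert (n t)) y := hy
      clear hy
      induction hy' with
      | refl => exact Relation.ReflTransGen.refl
      | @tail b c hb' hbc ih =>
        exact Relation.ReflTransGen.tail ih ⟨hbc.1, hb', Relation.ReflTransGen.tail hb' hbc⟩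
    exact (lk_symm (hwalk a ha)).trans (hwalk b hb)
  · intro t _
    refine (F t).finite_toSet.subset ?_
    rintro y ⟨hy, z, hz, hzy⟩
    by_contra hyF
    exact hy (Relation.ReflTransGen.tail hz ⟨hzy, hCF t hz, hyF⟩)
  · intro t _
    exact ⟨n t, hCi t⟩
  · intro s hs t ht hst hps
    have h1 := (hp t ht.2).2 s hs.2 hst hps
    rw [notSeparated_iff] at h1
    obtain ⟨N, hN⟩ := h1
    refine ⟨N, fun m hm => ?_⟩
    have h2 := (hN (max N (n t)) (le_max_left _ _) m hm).2
    have h3 : Lk G ((F t : Set V)ᶜ) ((ρ t).vert (n t)) ((ρ t).vert (max N (n t))) :=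
      hCi t _ (le_max_right _ _)
    exact h3.trans h2
  · intro s hs t ht hst
    by_contra hcon
    push Not at hcon
    obtain ⟨M, hM⟩ := eventually_out (F s) (ρ t)
    obtain ⟨m, hm, hmC⟩ := hcon M
    apply hsep s t hs.2 ht.2 hst
    rw [notSeparated_iff]
    refine ⟨max m (n s), fun i hi j hj => ⟨hn s i ((le_max_right _ _).trans hi), ?_⟩⟩
    have h1 : Lk G ((F s : Set V)ᶜ) ((ρ s).vert (n s)) ((ρ s).vert i) :=
      hCi s i ((le_max_right _ _).trans hi)
    have h2 : Lk G ((F s : Set V)ᶜ) ((ρ s).vert (n s)) ((ρ t).vert m) := hmC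
    have h3 : Lk G ((F s : Set V)ᶜ) ((ρ t).vert m) ((ρ t).vert j) :=
      lk_ray hM hm ((le_max_left _ _).trans hj)
    exact (lk_symm h1).trans (h2.trans h3)
  · intro t ht
    exact (hp t ht.2).1

/-- The ray below a limit node. -/
def below (hT : IsOrderTree T) (t : T) (ht : IsLim t) : TreeRay T where
  carrier := Iio t
  chain := by
    intro a ha b hb _
    exact comparable hT (le_of_lt ha) (le_of_lt hb)
  down := fun a ha b hb => lt_of_le_of_lt hb ha
  noMax := by
    intro a ha
    obtain ⟨b, hab, hbt⟩ := ht.2 a ha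
    exact ⟨b, hbt, hab⟩

theorem main_all (hT : IsOrderTree T) (G : SimpleGraph V) (φ : TreeRay T → Ends G)
    (hφ : IsInducing φ) : IsSpecial T := by
  classical
  let R0 : TreeRay T := ⟨∅, by simp, by simp, by simp⟩
  refine main_gen hT G (fun R => R) IsInducing.id
    (fun t => if h : IsLim t then below hT t h else R0) ?_ φ hφ
  intro t ht
  simp only [dif_pos ht]
  rfl

theorem main_nonempty (hT : IsOrderTree T) (G : SimpleGraph V) (φ : NonemptyRay T → Ends G)
    (hφ : IsInducing φ) : IsSpecial T := by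
  classical
  by_cases hlim : ∃ t : T, IsLim t
  · obtain ⟨t0, ht0⟩ := hlim
    let R0 : NonemptyRay T := ⟨below hT t0 ht0, ht0.1⟩
    refine main_gen hT G (fun R : NonemptyRay T => R.1) IsInducing.subtypeVal
      (fun t => if h : IsLim t then ⟨below hT t h, h.1⟩ else R0) ?_ φ hφ
    intro t ht
    simp only [dif_pos ht]
    rfl
  · -- no limit nodes: `T` has height at most `ω`
    obtain ⟨r, hr⟩ := hT.1
    apply special_of_small hT hr
    apply small_succ
    rintro t ⟨_, ht2⟩
    by_contra h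
    apply hlim
    refine ⟨t, ⟨r, lt_of_le_of_ne (hr t) (Ne.symm ht2)⟩, fun s hs => ?_⟩
    push Not at h
    obtain ⟨s', hs', hn⟩ := h s hs
    rcases comparable hT hs.le hs'.le with h1 | h1
    · exact ⟨s', lt_of_le_of_ne h1 (fun h2 => hn h2.ge), hs'⟩
    · exact absurd h1 hn

end X198NS
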