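import Pool.Agent.X198.NS.Comb

open Set Filter Topology

namespace X198NS

universe u v

variable {T : Type u} [PartialOrder T] {V : Type v}

theorem comb (hT : IsOrderTree T) (G : SimpleGraph V) (L : Set T) (hL : L ⊆ Ctb T)
    (ρ : T → ℕ → V) (hinj : ∀ t ∈ L, Function.Injective (ρ t))
    (hadj : ∀ t ∈ L, ∀ n, G.Adj (ρ t n) (ρ t (n + 1)))
    (C : T → Set V) (p : T → T) (r : T) (hr : ∀ t ∈ L, r < t)
    (hconn : ∀ t ∈ L, ∀ x ∈ C t, ∀ y ∈ C t, Lk G (C t) x y)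
    (hfin : ∀ t ∈ L, (Nb G (C t)).Finite)
    (hi : ∀ t ∈ L, ∃ N, ∀ n ≥ N, ρ t n ∈ C t)
    (ha : ∀ s ∈ L, ∀ t ∈ L, s < t → p t < s → ∃ N, ∀ n ≥ N, ρ s n ∈ C t)
    (hb : ∀ s ∈ L, ∀ t ∈ L, s < t → ∃ N, ∀ n ≥ N, ρ t n ∉ C s)
    (hp : ∀ t ∈ L, p t < t) : Small L := by
  classical
  by_contra hn
  -- Step A: `p` is constant
  obtain ⟨p0, hn0⟩ := press' hT hL hp hn
  -- Step B: the number of separating vertices is constant
  obtain ⟨k, hn1⟩ := split' (fun t => (Nb G (C t)).ncard) hn0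
  set U1 : Set T := {t | t ∈ {t | t ∈ L ∧ p t = p0} ∧ (Nb G (C t)).ncard = k} with hU1
  have hU1L : ∀ t ∈ U1, t ∈ L := fun t ht => ht.1.1
  have hU1p : ∀ t ∈ U1, p t = p0 := fun t ht => ht.1.2
  have ha1 : ∀ s ∈ U1, ∀ t ∈ U1, s < t → ∃ N, ∀ n ≥ N, ρ s n ∈ C t := by
    intro s hs t ht hst
    apply ha s (hU1L s hs) t (hU1L t ht) hst
    rw [hU1p t ht, ← hU1p s hs]
    exact hp s (hU1L s hs)
  -- Step C: a maximal common part
  obtain ⟨m, ⟨D, hDm, U2, hU2, hn2, hD2⟩, hmax⟩ : ∃ m : ℕ,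
      (∃ D : Finset V, D.card = m ∧ ∃ U ⊆ U1, ¬ Small U ∧ ∀ t ∈ U, (D : Set V) ⊆ Nb G (C t)) ∧
      ∀ n, (∃ D : Finset V, D.card = n ∧ ∃ U ⊆ U1, ¬ Small U ∧
        ∀ t ∈ U, (D : Set V) ⊆ Nb G (C t)) → n ≤ m := by
    have hfinP : {n : ℕ | ∃ D : Finset V, D.card = n ∧ ∃ U ⊆ U1, ¬ Small U ∧
        ∀ t ∈ U, (D : Set V) ⊆ Nb G (C t)}.Finite := by
      refine (Set.finite_Iic k).subset ?_
      rintro n ⟨D, hDn, U, hU, hnU, hDU⟩
      have hne : U.Nonempty := by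
        by_contra h
        rw [not_nonempty_iff_eq_empty] at h
        apply hnU
        rw [h]
        exact ⟨fun t => t, by simp, fun s => ⟨fun _ => 0, by simp⟩⟩
      obtain ⟨t, ht⟩ := hne
      have h1 := Set.ncard_le_ncard (hDU t ht) (hfin t (hU1L t (hU ht)))
      rw [Set.ncard_coe_finset] at h1
      have h2 : (Nb G (C t)).ncard = k := (hU ht).2
      simp only [mem_Iic]
      omega
    obtain ⟨m, hm, hmax⟩ := Set.exists_max_image _ id hfinP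
      ⟨0, ∅, rfl, U1, subset_rfl, hn1, by simp⟩
    exact ⟨m, hm, hmax⟩
  have hsmallv : ∀ v, v ∉ D → Small {t | t ∈ U2 ∧ v ∈ Nb G (C t)} := by
    intro v hv
    by_contra hns
    have := hmax (m + 1) ⟨insert v D, by rw [Finset.card_insert_of_notMem hv, hDm],
      {t | t ∈ U2 ∧ v ∈ Nb G (C t)}, fun t ht => hU2 ht.1, hns, by
        rintro t ⟨ht, hvt⟩ x hx
        rw [Finset.coe_insert] at hx
        rcases hx with rfl | hx
        · exact hvt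
        · exact hD2 t ht hx⟩
    omega
  -- Step D: disjointness
  set B : Set T := {t | t ∈ U2 ∧ ∃ s ∈ U2, s < t ∧ ∃ v, v ∉ D ∧ v ∈ Nb G (C s) ∧
    v ∈ Nb G (C t)} with hB
  have hBsmall : Small B := by
    by_contra hnB
    have hsel : ∀ t : T, ∃ s, t ∈ B → s ∈ U2 ∧ s < t ∧ ∃ v, v ∉ D ∧ v ∈ Nb G (C s) ∧
        v ∈ Nb G (C t) := by
      intro t
      by_cases ht : t ∈ B
      · obtain ⟨s, hs⟩ := ht.2
        exact ⟨s, fun _ => hs⟩
      · exact ⟨t, fun h => absurd h ht⟩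
    choose f hf using hsel
    obtain ⟨s0, hns⟩ := press' hT (fun t ht => hL (hU1L t (hU2 ht.1)))
      (fun t ht => (hf t ht).2.1) hnB
    apply hns
    have hcount : Small (⋃ v : {v : V // v ∉ D ∧ v ∈ Nb G (C s0) ∧ s0 ∈ U2},
        {t | t ∈ U2 ∧ v.1 ∈ Nb G (C t)}) := by
      have : Countable {v : V // v ∉ D ∧ v ∈ Nb G (C s0) ∧ s0 ∈ U2} := by
        by_cases hs0 : s0 ∈ U2
        · have h1 : (Nb G (C s0)).Finite := hfin s0 (hU1L s0 (hU2 hs0))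
          have h2 : ({v : V | v ∉ D ∧ v ∈ Nb G (C s0) ∧ s0 ∈ U2} : Set V).Finite :=
            h1.subset fun v hv => hv.2.1
          exact h2.countable
        · have : IsEmpty {v : V // v ∉ D ∧ v ∈ Nb G (C s0) ∧ s0 ∈ U2} :=
            ⟨fun v => hs0 v.2.2.2⟩
          infer_instance
      exact small_iUnion fun v => hsmallv v.1 v.2.1
    refine hcount.mono ?_
    rintro t ⟨ht, hts⟩
    obtain ⟨h1, h2, v, h3, h4, h5⟩ := hf t ht
    rw [hts] at h1 h4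
    exact mem_iUnion.2 ⟨⟨v, h3, h4, h1⟩, ht.1, h5⟩
  have hn3 : ¬ Small (U2 \ B) := fun h => hn2 ((small_union h hBsmall).mono fun t ht => by
    by_cases hb' : t ∈ B
    · exact Or.inr hb'
    · exact Or.inl ⟨ht, hb'⟩)
  have hdis : ∀ s ∈ U2 \ B, ∀ t ∈ U2 \ B, s < t → ∀ v ∈ Nb G (C s), v ∈ Nb G (C t) →
      v ∈ D := by
    intro s hs t ht hst v h1 h2
    by_contra hv
    exact ht.2 ⟨ht.1, s, hs.1, hst, v, hv, h1, h2⟩
  -- Step E: a common vertex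
  have hMsmall : Small {t | t ∈ U2 \ B ∧ ∀ s ∈ U2 \ B, ¬ s < t} :=
    small_of_special ⟨fun _ => 0, fun a ha' b hb' hab => absurd hab (hb'.2 a ha'.1)⟩ r
      (fun t ht => hr t (hU1L t (hU2 ht.1.1)))
  set U3 : Set T := {t | t ∈ U2 \ B ∧ ∃ s ∈ U2 \ B, s < t} with hU3
  have hn4 : ¬ Small U3 := fun h => hn3 ((small_union h hMsmall).mono fun t ht => by
    by_cases hb' : ∃ s ∈ U2 \ B, s < t
    · exact Or.inl ⟨ht, hb'⟩
    · exact Or.inr ⟨ht, fun s hs hst => hb' ⟨s, hs, hst⟩⟩)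
  have hsel : ∀ t : T, ∃ s, t ∈ U3 → s ∈ U2 \ B ∧ s < t := by
    intro t
    by_cases ht : t ∈ U3
    · obtain ⟨s, hs⟩ := ht.2
      exact ⟨s, fun _ => hs⟩
    · exact ⟨t, fun h => absurd h ht⟩
  choose f hf using hsel
  have hU3L : ∀ t ∈ U3, t ∈ U1 := fun t ht => hU2 ht.1.1
  obtain ⟨t0, hn5⟩ := press' hT (fun t ht => hL (hU1L t (hU3L t ht)))
    (fun t ht => (hf t ht).2) hn4
  have hselN : ∀ t : T, ∃ N : ℕ, t ∈ {t | t ∈ U3 ∧ f t = t0} → ρ t0 N ∈ C t := by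
    intro t
    by_cases ht : t ∈ {t | t ∈ U3 ∧ f t = t0}
    · have h1 := hf t ht.1
      rw [ht.2] at h1
      obtain ⟨N, hN⟩ := ha1 t0 (hU2 h1.1.1) t (hU3L t ht.1) h1.2
      exact ⟨N, fun _ => hN N le_rfl⟩
    · exact ⟨0, fun h => absurd h ht⟩
  choose Nf hNf using hselN
  obtain ⟨N0, hn6⟩ := split' Nf hn5
  set U4 : Set T := {t | t ∈ {t | t ∈ U3 ∧ f t = t0} ∧ Nf t = N0} with hU4
  have hU4U3 : ∀ t ∈ U4, t ∈ U3 := fun t ht => ht.1.1
  have hv0 : ∀ t ∈ U4, ρ t0 N0 ∈ C t := fun t ht => by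
    rw [← ht.2]
    exact hNf t ht.1
  -- Step F: bad predecessors
  have hbadfin : ∀ t ∈ U4, {s | s ∈ U4 ∧ s < t ∧
      ∃ v, v ∈ Nb G (C t) ∧ v ∉ D ∧ v ∉ C s}.Finite := by
    intro t ht
    have htL : t ∈ L := hU1L t (hU3L t (hU4U3 t ht))
    have h1 : ∀ v ∈ Nb G (C t) \ D, {s | s ∈ U4 ∧ s < t ∧ v ∉ C s}.Finite := by
      rintro v ⟨hv, hvD⟩
      obtain ⟨hvC, w, hw, hwv⟩ := hv
      have hlk : Lk G (C t ∪ {v}) (ρ t0 N0) v :=
        Relation.ReflTransGen.tail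
          (lk_mono subset_union_left (hconn t htL _ (hv0 t ht) w hw))
          ⟨hwv, Or.inl hw, Or.inr rfl⟩
      refine fin_bad (D := (D : Set V)) (fun s hs _ => hv0 s hs) ?_ ?_ hlk
      · intro x hx a ha' b hb'
        obtain ⟨ha1', ha2, ha3⟩ := ha'
        obtain ⟨hb1, hb2, hb3⟩ := hb'
        have ha4 := (hU4U3 a ha1').1
        have hb4 := (hU4U3 b hb1).1
        rcases comparable hT ha2.le hb2.le with h | h
        · rcases eq_or_lt_of_le h with h | h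
          · exact h
          · exact absurd (hdis a ha4 b hb4 h x ha3 hb3) hx
        · rcases eq_or_lt_of_le h with h | h
          · exact h.symm
          · exact absurd (hdis b hb4 a ha4 h x hb3 ha3) hx
      · rintro x (hx | rfl) hxD
        · exact (hD2 t (hU4U3 t ht).1.1 hxD).1 hx
        · exact hvD hxD
    have h2 : (Nb G (C t) \ D).Finite := (hfin t htL).subset diff_subset
    refine (h2.biUnion h1).subset ?_
    rintro s ⟨hs1, hs2, v, hv1, hv2, hv3⟩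
    exact mem_biUnion (⟨hv1, hv2⟩ : v ∈ Nb G (C t) \ D) ⟨hs1, hs2, hv3⟩
  have hselh : ∀ t : T, ∃ h : T, t ∈ U4 → h < t ∧ ∀ s, (s ∈ U4 ∧ s < t ∧
      ∃ v, v ∈ Nb G (C t) ∧ v ∉ D ∧ v ∉ C s) → s ≤ h := by
    intro t
    by_cases ht : t ∈ U4
    · by_cases hne : {s | s ∈ U4 ∧ s < t ∧ ∃ v, v ∈ Nb G (C t) ∧ v ∉ D ∧ v ∉ C s}.Nonempty
      · -- a maximal element of a finite chain
        obtain ⟨h, hh, hhmax⟩ := (hbadfin t ht).exists_maximal hne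
        refine ⟨h, fun _ => ⟨hh.2.1, fun s hs => ?_⟩⟩
        rcases comparable hT hs.2.1.le hh.2.1.le with h1 | h1
        · exact h1
        · exact hhmax hs h1
      · refine ⟨r, fun _ => ⟨hr t (hU1L t (hU3L t (hU4U3 t ht))), fun s hs => ?_⟩⟩
        exact absurd ⟨s, hs⟩ hne
    · exact ⟨t, fun h => absurd h ht⟩
  choose h hh using hselh
  obtain ⟨h0, hn7⟩ := press' hT (fun t ht => hL (hU1L t (hU3L t (hU4U3 t ht))))
    (fun t ht => (hh t ht).1) hn6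
  -- Step G
  apply hn7
  set U5 : Set T := {t | t ∈ U4 ∧ h t = h0} with hU5
  have hU5L : ∀ t ∈ U5, t ∈ L := fun t ht => hU1L t (hU3L t (hU4U3 t ht.1))
  refine small_of_special ?_ r (fun t ht => hr t (hU5L t ht))
  refine stepG hT G U5 ρ (fun t ht => hinj t (hU5L t ht)) (fun t ht => hadj t (hU5L t ht))
    C (D : Set V) (fun t ht => hconn t (hU5L t ht)) (fun t ht => hfin t (hU5L t ht))
    (fun t ht => hi t (hU5L t ht))
    (fun s hs t ht hst => ha1 s (hU3L s (hU4U3 s hs.1)) t (hU3L t (hU4U3 t ht.1)) hst)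
    (fun s hs t ht hst => hb s (hU5L s hs) t (hU5L t ht) hst)
    (fun t ht => hD2 t (hU4U3 t ht.1).1.1) ?_
  intro s hs t ht hst v hv hvD
  by_contra hvC
  have h1 := (hh t ht.1).2 s ⟨hs.1, hst, v, hv, hvD, hvC⟩
  rw [ht.2, ← hs.2] at h1
  exact absurd (hh s hs.1).1 (not_lt_of_ge h1)

end X198NS
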