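import Pool.Agent.X198.NS.Defs

open Set Filter Topology

namespace X198NS

universe u v

variable {T : Type u} [PartialOrder T]

/-- `U` is a union of countably many antichains. -/
def SpecialOn (U : Set T) : Prop := ∃ c : T → ℕ, ∀ a ∈ U, ∀ b ∈ U, a < b → c a ≠ c b

/-- There is a regressive function on `U` with special fibres. -/
def Small (U : Set T) : Prop :=
  ∃ f : T → T, (∀ t ∈ U, f t < t) ∧ ∀ s, SpecialOn {t | t ∈ U ∧ f t = s}

/-- The nodes with countably many predecessors. -/
def Ctb (T : Type u) [PartialOrder T] : Set T := {t | (Iic t).Countable}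

theorem SpecialOn.mono {U W : Set T} (h : SpecialOn W) (hU : U ⊆ W) : SpecialOn U := by
  obtain ⟨c, hc⟩ := h
  exact ⟨c, fun a ha b hb => hc a (hU ha) b (hU hb)⟩

theorem specialOn_iUnion {ι : Type*} [Countable ι] {U : ι → Set T} (h : ∀ i, SpecialOn (U i)) :
    SpecialOn (⋃ i, U i) := by
  classical
  choose c hc using h
  obtain ⟨e, he⟩ := exists_injective_nat ι
  have hsel : ∀ t : T, ∃ i : Option ι, t ∈ (⋃ i, U i) → ∃ j, i = some j ∧ t ∈ U j := by
    intro t
    by_cases ht : t ∈ ⋃ i, U i
    · obtain ⟨j, hj⟩ := mem_iUnion.1 ht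
      exact ⟨some j, fun _ => ⟨j, rfl, hj⟩⟩
    · exact ⟨none, fun h => absurd h ht⟩
  choose i hi using hsel
  refine ⟨fun t => match i t with
    | none => 0
    | some j => Nat.pair (e j) (c j t), ?_⟩
  intro a ha b hb hab heq
  obtain ⟨j, hj, haj⟩ := hi a ha
  obtain ⟨k, hk, hbk⟩ := hi b hb
  simp only [hj, hk] at heq
  rw [Nat.pair_eq_pair] at heq
  obtain ⟨h1, h2⟩ := heq
  have hjk := he h1
  subst hjk
  exact hc j a haj b hbk hab h2

theorem Small.mono {U W : Set T} (h : Small W) (hU : U ⊆ W) : Small U := by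
  obtain ⟨f, hf, hs⟩ := h
  exact ⟨f, fun t ht => hf t (hU ht), fun s => (hs s).mono fun t ht => ⟨hU ht.1, ht.2⟩⟩

theorem small_iUnion {ι : Type*} [Countable ι] {U : ι → Set T} (h : ∀ i, Small (U i)) :
    Small (⋃ i, U i) := by
  classical
  choose f hf hs using h
  have hsel : ∀ t : T, ∃ g : T, t ∈ (⋃ i, U i) → ∃ j, g = f j t ∧ t ∈ U j := by
    intro t
    by_cases ht : t ∈ ⋃ i, U i
    · obtain ⟨j, hj⟩ := mem_iUnion.1 ht
      exact ⟨f j t, fun _ => ⟨j, rfl, hj⟩⟩
    · exact ⟨t, fun h => absurd h ht⟩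
  choose g hg using hsel
  refine ⟨g, ?_, ?_⟩
  · intro t ht
    obtain ⟨j, hj, htj⟩ := hg t ht
    rw [hj]
    exact hf j t htj
  · intro s
    refine (specialOn_iUnion (fun i => hs i s)).mono ?_
    rintro t ⟨ht, hts⟩
    obtain ⟨j, hj, htj⟩ := hg t ht
    exact mem_iUnion.2 ⟨j, htj, hj ▸ hts⟩

theorem small_union {U W : Set T} (hU : Small U) (hW : Small W) : Small (U ∪ W) := by
  have : Small (⋃ b : Bool, (if b then U else W)) := by
    apply small_iUnion
    intro b
    cases b
    · simpa using hW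
    · simpa using hU
  refine this.mono ?_
  rintro t (ht | ht)
  · exact mem_iUnion.2 ⟨true, by simpa using ht⟩
  · exact mem_iUnion.2 ⟨false, by simpa using ht⟩

theorem small_of_special {U : Set T} (h : SpecialOn U) (r : T) (hr : ∀ t ∈ U, r < t) :
    Small U :=
  ⟨fun _ => r, hr, fun _ => h.mono fun _ ht => ht.1⟩

theorem comparable (hT : IsOrderTree T) {a b t : T} (ha : a ≤ t) (hb : b ≤ t) :
    a ≤ b ∨ b ≤ a := by
  obtain ⟨m, hm, hmin⟩ := hT.2 t {a, b} (by
    rintro x (rfl | rfl)
    · exact ha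
    · exact hb) ⟨a, by simp⟩
  rcases hm with rfl | rfl
  · exact Or.inl (hmin b (by simp))
  · exact Or.inr (hmin a (by simp))

theorem wf (hT : IsOrderTree T) : WellFounded (fun a b : T => a < b) := by
  rw [WellFounded.wellFounded_iff_has_min]
  intro S ⟨t, ht⟩
  obtain ⟨m, hm, hmin⟩ := hT.2 t (S ∩ Iic t) inter_subset_right ⟨t, ht, le_refl t⟩
  refine ⟨m, hm.1, fun x hx hlt => ?_⟩
  exact absurd (hmin x ⟨hx, hlt.le.trans hm.2⟩) (not_le_of_gt hlt)

/-- Pressing down. -/
theorem press (hT : IsOrderTree T) {U : Set T} (hU : U ⊆ Ctb T) {f : T → T}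
    (hf : ∀ t ∈ U, f t < t) (hs : ∀ s, Small {t | t ∈ U ∧ f t = s}) : Small U := by
  classical
  choose g hg hgs using hs
  refine ⟨fun t => if f t ≤ g (f t) t then g (f t) t else f t, ?_, ?_⟩
  · intro t ht
    dsimp only
    split_ifs
    · exact hg (f t) t ⟨ht, rfl⟩
    · exact hf t ht
  · intro r
    by_cases hr : r ∈ Ctb T
    · have : Countable (Iic r) := hr
      refine (specialOn_iUnion (U := fun ab : Iic r × Iic r =>
        {t | (t ∈ {t | t ∈ U ∧ f t = ab.1.1}) ∧ g ab.1.1 t = ab.2.1}) (fun ab => hgs _ _)).mono ?_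
      rintro t ⟨ht, htr⟩
      dsimp only at htr
      have h1 : f t ≤ r := by
        split_ifs at htr with h
        · exact htr ▸ h
        · exact htr.le
      have h2 : g (f t) t ≤ r := by
        split_ifs at htr with h
        · exact htr.le
        · rw [← htr]
          exact ((comparable hT (hf t ht).le (hg (f t) t ⟨ht, rfl⟩).le).resolve_left h)
      exact mem_iUnion.2 ⟨(⟨f t, h1⟩, ⟨g (f t) t, h2⟩), ⟨ht, rfl⟩, rfl⟩
    · refine ⟨fun _ => 0, ?_⟩
      rintro a ⟨ha, har⟩
      exfalso
      apply hr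
      have hra : r ≤ a := by
        dsimp only at har
        rw [← har]
        split_ifs
        · exact (hg (f a) a ⟨ha, rfl⟩).le
        · exact (hf a ha).le
      have : (Iic a).Countable := hU ha
      exact this.mono (Iic_subset_Iic.2 hra)

/-- Pressing down, positive form. -/
theorem press' (hT : IsOrderTree T) {U : Set T} (hU : U ⊆ Ctb T) {f : T → T}
    (hf : ∀ t ∈ U, f t < t) (hn : ¬ Small U) : ∃ s, ¬ Small {t | t ∈ U ∧ f t = s} := by
  by_contra h
  push Not at h
  exact hn (press hT hU hf h)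

/-- A partition into countably many pieces. -/
theorem split' {ι : Type*} [Countable ι] {U : Set T} (f : T → ι) (hn : ¬ Small U) :
    ∃ s, ¬ Small {t | t ∈ U ∧ f t = s} := by
  by_contra h
  push Not at h
  exact hn ((small_iUnion h).mono fun t ht => mem_iUnion.2 ⟨f t, ht, rfl⟩)

/-- The successor nodes. -/
theorem small_succ (U : Set T) (hU : ∀ t ∈ U, ∃ s, s < t ∧ ∀ r < t, r ≤ s) : Small U := by
  classical
  have hsel : ∀ t : T, ∃ s, t ∈ U → s < t ∧ ∀ r < t, r ≤ s := by
    intro t
    by_cases ht : t ∈ U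
    · obtain ⟨s, hs⟩ := hU t ht
      exact ⟨s, fun _ => hs⟩
    · exact ⟨t, fun h => absurd h ht⟩
  choose f hf using hsel
  refine ⟨f, fun t ht => (hf t ht).1, fun s => ⟨fun _ => 0, ?_⟩⟩
  rintro a ⟨ha, has⟩ b ⟨hb, hbs⟩ hab
  exfalso
  have h1 := (hf b hb).2 a hab
  rw [hbs, ← has] at h1
  exact absurd (hf a ha).1 (not_lt_of_ge h1)

theorem special_of_small (hT : IsOrderTree T) {r : T} (hr : ∀ t, r ≤ t)
    (h : Small {t | t ∈ Ctb T ∧ t ≠ r}) : IsSpecial T := by
  classical
  obtain ⟨f, hf, hs⟩ := h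
  choose c hc using hs
  -- the colouring by lists
  let col : T → List ℕ := (wf hT).fix (fun t rec =>
    if h : t ∈ {t | t ∈ Ctb T ∧ t ≠ r} then c (f t) t :: rec (f t) (hf t h) else [])
  have hcol : ∀ t, col t = if t ∈ {t | t ∈ Ctb T ∧ t ≠ r} then c (f t) t :: col (f t) else [] := by
    intro t
    have := (wf hT).fix_eq (fun t rec =>
      if h : t ∈ {t | t ∈ Ctb T ∧ t ≠ r} then c (f t) t :: rec (f t) (hf t h) else []) t
    simp only [col]
    rw [this]
    split_ifs <;> rfl
  have key : ∀ a : T, a ∈ Ctb T → ∀ b, b ∈ Ctb T → (a ≤ b ∨ b ≤ a) → col a = col b → a = b := by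
    intro a
    induction a using (wf hT).induction with
    | _ a ih =>
      intro ha b hb hab hc'
      by_cases har : a = r
      · rw [hcol a, if_neg (by rintro ⟨_, h⟩; exact h har)] at hc'
        by_cases hbr : b = r
        · rw [har, hbr]
        · rw [hcol b, if_pos ⟨hb, hbr⟩] at hc'
          exact absurd hc' (by simp)
      · rw [hcol a, if_pos ⟨ha, har⟩] at hc'
        by_cases hbr : b = r
        · rw [hcol b, if_neg (by rintro ⟨_, h⟩; exact h hbr)] at hc'
          exact absurd hc' (by simp)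
        · rw [hcol b, if_pos ⟨hb, hbr⟩] at hc'
          have h1 := (List.cons.inj hc').1
          have h2 := (List.cons.inj hc').2
          have hfa := hf a ⟨ha, har⟩
          have hfb := hf b ⟨hb, hbr⟩
          have hcomp : f a ≤ f b ∨ f b ≤ f a := by
            rcases hab with h | h
            · exact comparable hT (hfa.le.trans h) hfb.le
            · exact comparable hT hfa.le (hfb.le.trans h)
          have hcta : f a ∈ Ctb T := by
            have : (Iic a).Countable := ha
            exact this.mono (Iic_subset_Iic.2 hfa.le)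
          have hctb : f b ∈ Ctb T := by
            have : (Iic b).Countable := hb
            exact this.mono (Iic_subset_Iic.2 hfb.le)
          have hfe := ih (f a) hfa hcta (f b) hctb hcomp h2
          by_contra hne
          rcases hab with h | h
          · exact hc (f a) a ⟨⟨ha, har⟩, rfl⟩ b ⟨⟨hb, hbr⟩, hfe.symm⟩ (lt_of_le_of_ne h hne)
              (by rw [h1, hfe])
          · exact hc (f a) b ⟨⟨hb, hbr⟩, hfe.symm⟩ a ⟨⟨ha, har⟩, rfl⟩
              (lt_of_le_of_ne h (Ne.symm hne)) (by rw [h1, hfe])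
  -- all nodes have countably many predecessors
  obtain ⟨e, he⟩ := exists_injective_nat (List ℕ)
  have hall : ∀ t, t ∈ Ctb T := by
    intro t
    induction t using (wf hT).induction with
    | _ t ih =>
      have h1 : (Iio t).Countable := by
        have hinj : InjOn col (Iio t) := by
          intro a ha b hb hab
          exact key a (ih a ha) b (ih b hb) (comparable hT (le_of_lt ha) (le_of_lt hb)) hab
        exact Set.countable_of_injective_of_countable_image hinj (Set.to_countable _)
      have h2 : Iic t ⊆ insert t (Iio t) := by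
        intro a ha
        rcases eq_or_lt_of_le (show a ≤ t from ha) with h | h
        · exact Or.inl h
        · exact Or.inr h
      exact (h1.insert t).mono h2
  refine ⟨fun n => {t | e (col t) = n}, ?_, ?_⟩
  · intro n a ha b hb hne hab
    exact hne (key a (hall a) b (hall b) (Or.inl hab) (he (ha.trans hb.symm)))
  · ext t
    simp

end X198NS
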